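import Mathlib
import Pool.Agent.V11283.Heis.GrSup

/-!
# MP_3d6eda: the supremum of the Grassmannian norms is a maximal invariant norm

The definitions used in the statement are in `Pool.Agent.V11283.Heis.Stmt` and
`Pool.Agent.V11283.Heis.GrSup`.
-/

namespace Pool.Agent.Results.MP_3d6eda_nt.SupIsMaximal

open Pool.Agent.V11283.Heis.St

/-- For every prime `p`, every `d` and every nontrivial smooth character `ψ`, the supremum `N_𝒢` of
the norms `‖·‖_α` (`α` in the Grassmannian) is finite, is a Heisenberg-invariant norm, and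
dominates every Heisenberg-invariant norm. -/
theorem result (p : ℕ) [Fact p.Prime] (d : ℕ) (ψ : AddChar ℚ_[p] ℂ_[p])
    (hψ : IsOpen {t : ℚ_[p] | ψ t = 1}) (hψ1 : ψ ≠ 1) :
    (∀ f : S p d, BddAbove (GrVals ψ hψ f)) ∧ IsNorm (NG (d := d) ψ hψ) ∧
      Invariant ψ hψ (NG (d := d) ψ hψ) ∧
      ∀ N : S p d → ℝ, IsNorm N → Invariant ψ hψ N → Dominates (NG ψ hψ) N :=
  ⟨grVals_bddAbove hψ1, NG_isNorm hψ1, NG_invariant hψ1,
    fun _ hN hinv => NG_dominates hψ1 hN.toIsSeminorm hinv⟩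

end Pool.Agent.Results.MP_3d6eda_nt.SupIsMaximal
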